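import Pool.Agent.L0h7.TC.Stm

set_option autoImplicit false

/-! Module S_DEG of project TC: the edges of the complex lie in two or three triangles. -/

namespace Pool.Agent.L0h19.TC

open Pool.Agent.L0h7.TC

theorem thN_two : ∀ a b : Fin 25, 12 ≤ a →
    (thN a b = [] ∨ ((thN a b).length = 2 ∧ (thN a b).Nodup)) := by decide +kernel

theorem thN_circ : ∀ a b : Fin 25, a < 9 → b < 9 → src a = src b → a ≠ b →
    ∃ c : Fin 25, 12 ≤ c ∧ thN a b = [(c : ℕ)] := by decide +kernel

theorem lift_lv : ∀ a : Fin 25, a < 9 → ∀ k : Fin 3, ∃ a' : Fin 25, a' < 9 ∧ src a' = some k ∧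
    idx a' = idx a := by decide +kernel

theorem th_two {a b c : Fin 25} (ha : 12 ≤ a) (h : c ∈ th a b) : (th a b).toFinset.card = 2 := by
  have h1 := th_N a b
  rcases thN_two a b ha with h2 | ⟨h2, h3⟩
  · rw [h2] at h1
    have h4 : th a b = [] := List.map_eq_nil_iff.1 h1
    rw [h4] at h
    exact absurd h (by simp)
  · rw [← h1, List.length_map] at h2
    rw [← h1] at h3
    rw [List.toFinset_card_of_nodup (List.Nodup.of_map _ h3), h2]

variable {V : Type} [DecidableEq V] {n : V → Fin 3 → V}

theorem case1 (hn : Nb n) {v : V} {a b c : Fin 25} (hc : c ∈ th a b) (ha : 12 ≤ a) :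
    {w | ({phi n v a, phi n v b, w} : Set (V × Fin 16)) ∈ KK n}.ncard = 2 := by
  have h : {w | ({phi n v a, phi n v b, w} : Set (V × Fin 16)) ∈ KK n} =
      phi n v '' ((th a b).toFinset : Set (Fin 25)) := by
    ext w
    rw [Set.mem_setOf_eq, mem_KK hn]
    constructor
    · rintro ⟨v', a', b', c', hc', h1, h2, rfl⟩
      obtain ⟨rfl, rfl⟩ := phi_priv ha h1.symm
      have h3 := phi_inj hn v h2
      subst h3
      exact ⟨c', by simpa using hc', rfl⟩
    · rintro ⟨c', hc', rfl⟩
      exact ⟨v, a, b, c', by simpa using hc', rfl, rfl, rfl⟩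
  rw [h, Set.ncard_image_of_injective _ (phi_inj hn v), Set.ncard_coe_finset, th_two ha hc]

theorem case3 (hn : Nb n) {v : V} {a b c : Fin 25} (hc : c ∈ th a b) (ha : a < 12) (hb : b < 12) :
    {w | ({phi n v a, phi n v b, w} : Set (V × Fin 16)) ∈ KK n}.ncard = 3 := by
  have ha9 : a < 9 := by
    rcases th_low hc ha with h | h
    · exact h
    · exact absurd hb (not_lt.2 h.2.1)
  have hb9 : b < 9 := by
    rcases th_low (th_swap hc) hb with h | h
    · exact h
    · exact absurd ha (not_lt.2 h.2.1)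
  have hs := th_src hc ha9 hb9
  obtain ⟨k0, hk0⟩ := Option.ne_none_iff_exists'.1 ((src_idx a).2.2.2 ha9)
  have hab : a ≠ b := (th_ne hc).1
  have hidx : idx a ≠ idx b := fun h => hab (src_idx_inj a b hs h)
  have hua : fib n v a = n v k0 := by
    unfold fib
    rw [hk0]
    rfl
  have hub : fib n v b = n v k0 := by
    unfold fib
    rw [← hs, hk0]
    rfl
  have key : ∀ l : Fin 3, ∃ a' b' c' : Fin 25, phi n (n (n v k0) l) a' = phi n v a ∧
      phi n (n (n v k0) l) b' = phi n v b ∧ 12 ≤ c' ∧ th a' b' = [c'] := by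
    intro l
    obtain ⟨k, hk⟩ := hn.symm (n v k0) l
    obtain ⟨a', ha', ha1, ha2⟩ := lift_lv a ha9 k
    obtain ⟨b', hb', hb1, hb2⟩ := lift_lv b hb9 k
    have hne : a' ≠ b' := by
      rintro rfl
      exact hidx (ha2.symm.trans hb2)
    obtain ⟨c', hc', hc1⟩ := thN_circ a' b' ha' hb' (ha1.trans hb1.symm) hne
    refine ⟨a', b', c', ?_, ?_, hc', th_of_N (by rw [hc1]; rfl)⟩
    · refine Prod.ext ?_ ha2
      change fib n _ a' = fib n v a
      rw [hua]
      unfold fib
      rw [ha1]
      exact hk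
    · refine Prod.ext ?_ hb2
      change fib n _ b' = fib n v b
      rw [hub]
      unfold fib
      rw [hb1]
      exact hk
  choose A B C hA hB hC hth using key
  have h : {w | ({phi n v a, phi n v b, w} : Set (V × Fin 16)) ∈ KK n} =
      (fun l => phi n (n (n v k0) l) (C l)) '' Set.univ := by
    ext w
    rw [Set.mem_setOf_eq, mem_KK hn]
    constructor
    · rintro ⟨v1, a1, b1, c1, hc1, h1, h2, rfl⟩
      have ha1 : a1 < 12 := by
        by_contra h5
        have h6 := ((src_idx a1).1 (not_lt.1 h5)).2.2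
        have h7 : idx a1 = idx a := congrArg Prod.snd h1
        have h8 := (src_idx a).2.1 ha
        rw [h7] at h6
        omega
      have hb1 : b1 < 12 := by
        by_contra h5
        have h6 := ((src_idx b1).1 (not_lt.1 h5)).2.2
        have h7 : idx b1 = idx b := congrArg Prod.snd h2
        have h8 := (src_idx b).2.1 hb
        rw [h7] at h6
        omega
      have ha19 : a1 < 9 := by
        rcases th_low hc1 ha1 with h | h
        · exact h
        · exact absurd hb1 (not_lt.2 h.2.1)
      obtain ⟨k1, hk1⟩ := Option.ne_none_iff_exists'.1 ((src_idx a1).2.2.2 ha19)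
      have h3 : fib n v1 a1 = fib n v a := congrArg Prod.fst h1
      have h4 : n v1 k1 = n v k0 := by
        rw [hua] at h3
        rw [← h3]
        unfold fib
        rw [hk1]
        rfl
      obtain ⟨l, hl⟩ := hn.symm v1 k1
      rw [h4] at hl
      subst hl
      refine ⟨l, Set.mem_univ _, ?_⟩
      have e1 : a1 = A l := phi_inj hn _ (h1.trans (hA l).symm)
      have e2 : b1 = B l := phi_inj hn _ (h2.trans (hB l).symm)
      rw [e1, e2, hth l] at hc1
      rw [List.mem_singleton.1 hc1]
    · rintro ⟨l, -, rfl⟩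
      exact ⟨_, A l, B l, C l, by rw [hth l]; simp, hA l, hB l, rfl⟩
  have hinj : Function.Injective (fun l => phi n (n (n v k0) l) (C l)) := by
    intro l l' hl
    exact hn.inj _ (phi_priv (hC l) hl).1
  rw [h, Set.ncard_image_of_injective _ hinj, Set.ncard_univ]
  simp

theorem s_deg : S_DEG := by
  intro V _ _ n hn x y z h
  obtain ⟨v, a, b, c, hc, rfl, rfl, rfl⟩ := (mem_KK hn).1 h
  by_cases ha : 12 ≤ a
  · rw [case1 hn hc ha]
    norm_num
  · by_cases hb : 12 ≤ b
    · have e : {w | ({phi n v a, phi n v b, w} : Set (V × Fin 16)) ∈ KK n} =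
          {w | ({phi n v b, phi n v a, w} : Set (V × Fin 16)) ∈ KK n} := by
        ext w
        rw [Set.mem_setOf_eq, Set.mem_setOf_eq, Set.insert_comm]
      rw [e, case1 hn (th_swap hc) hb]
      norm_num
    · rw [case3 hn hc (not_le.1 ha) (not_le.1 hb)]
      norm_num

end Pool.Agent.L0h19.TC
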